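import Pool.Agent.Lib.BorelManifold.CodingThm
import Pool.Agent.Lib.BorelManifold.Assembly

/-!
# Diffeomorphism of connected smooth manifolds: Borel complexity increases with the dimension

Connected smooth `n`-manifolds are coded by the nonempty closed connected embedded smooth
`n`-dimensional submanifolds of `ℝ^N` with the Effros Borel structure (by Whitney, every connected
smooth `n`-manifold is diffeomorphic to such a submanifold as soon as `2 n + 1 ≤ N`).  The
diffeomorphism relation in dimension `n` is Borel reducible to the one in dimension `n + 1`.

Outline of the proof.

* A countable system of model pieces, i.e. of pairs (closed `n`-dimensional submanifold `A`, radius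
  `r`), such that every coded manifold is, in a measurable way, the increasing union of embedded
  pieces; and countably many germs of embeddings between pieces which represent all classes of
  embeddings modulo compactly supported diffeomorphisms of the target (perturbation lemma plus
  separability of spaces of `C^1` maps).
* The embeddings of pieces into `M`, modulo compactly supported diffeomorphisms of `M`, form a
  countable labelled tree which is computed from the codes of the transition maps in a measurable
  way; a back and forth construction shows that it determines `M` up to diffeomorphism.
* Labelled trees are coded by open subsets of `ℝ^(n+1)`, properly embedded in `ℝ^N'`: the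
  complements of closed subsets of an axis, whose space of ends remembers the labelled tree.
-/

namespace Pool.Agent.Results.MP_fcca75_lc.DiffMonotone

open Pool.Agent.BorelManifold

/-- For `n ≥ 1` the diffeomorphism relation on connected smooth `n`-manifolds is Borel reducible to
the diffeomorphism relation on connected smooth `(n + 1)`-manifolds. -/
theorem result (n : ℕ) (hn : 1 ≤ n) (N N' : ℕ) (hN' : n + 2 ≤ N') :
    BorelReducible
      (Diffeomorphic : ManifoldSpace n N → ManifoldSpace n N → Prop)
      (Diffeomorphic : ManifoldSpace (n + 1) N' → ManifoldSpace (n + 1) N' → Prop) := by
  obtain ⟨k, rfl⟩ : ∃ k, n = k + 1 := ⟨n - 1, by omega⟩
  exact borelReducible_of_treeCoding (treeCoding (by omega))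

end Pool.Agent.Results.MP_fcca75_lc.DiffMonotone
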